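import Pool.Agent.H144.TS.Stm

set_option autoImplicit false

/-!
# Two-sided group codes: almost all numbers have many good primes (helper376)
-/

namespace Pool.Agent.H376.TS144

open Finset Filter Topology
open scoped Classical
open Pool.Agent.H144.TS
open Pool.Agent.H633.CY (Good Coll PP S_TUR S_COL S_GOOD2)

/-- `x / log x` is increasing -/
theorem div_log_mono {x y : ℝ} (hx : Real.exp 1 ≤ x) (hxy : x ≤ y) :
    x / Real.log x ≤ y / Real.log y := by
  have h1 : 0 < Real.exp 1 := Real.exp_pos 1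
  have hx0 : 0 < x := h1.trans_le hx
  have hy0 : 0 < y := hx0.trans_le hxy
  have hlx : 1 ≤ Real.log x := by
    rw [Real.le_log_iff_exp_le hx0]
    exact hx
  have hly : 1 ≤ Real.log y := by
    rw [Real.le_log_iff_exp_le hy0]
    exact hx.trans hxy
  have h2 : Real.log y / y ≤ Real.log x / x :=
    Real.log_div_self_antitoneOn (show Real.exp 1 ≤ x from hx) (show Real.exp 1 ≤ y from hx.trans hxy) hxy
  rw [div_le_div_iff₀ hy0 hx0] at h2
  rw [div_le_div_iff₀ (by linarith) (by linarith)]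
  linarith

theorem mem_PPL {η : ℝ} {N p : ℕ} (hp : p ∈ PPL η N) :
    p.Prime ∧ 8 ∣ p + 1 ∧ (∀ r : ℕ, r.Prime → 3 ≤ r →
      (r : ℝ) ≤ Real.log (Real.log N) ^ (11 / 5 : ℝ) → ¬ r ∣ p - 1) ∧
      Real.exp (Real.log N ^ (1 - η)) < p ∧ p ∈ Icc 1 ⌊Real.sqrt N⌋₊ := by
  unfold PPL at hp
  rw [mem_filter] at hp
  unfold PP at hp
  rw [mem_filter] at hp
  exact ⟨hp.1.2.1, hp.1.2.2.1, hp.1.2.2.2, hp.2, hp.1.1⟩

/-- the numbers outside of the exceptional sets -/
theorem many (h6 : S_GOOD2) {η c : ℝ} (hη1 : η < 1) (hc : 0 < c) {N n : ℕ} (hn0 : 0 < n)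
    (hnN : n ≤ N) (hn : Real.sqrt N < n)
    (hE : c * (Real.log (Real.log N) / Real.log (Real.log (Real.log N))) ≤
      ∑ p ∈ PPL η N, (1 : ℝ) / p)
    (hu : Real.exp 1 + Real.log 2 ≤ Real.log (Real.log N))
    (hlN : 0 < Real.log N)
    (hy : 2 ≤ Real.log (Real.log N) ^ (11 / 5 : ℝ))
    (hB : ¬ ((((PPL η N).filter (fun p => p ∣ n)).card : ℕ) : ℝ) <
      (∑ p ∈ PPL η N, (1 : ℝ) / p) / 2)
    (hC : ¬ Coll (Real.log (Real.log N) ^ (11 / 5 : ℝ)) n)
    (hD : ¬ ∃ r p : ℕ, r.Prime ∧ p.Prime ∧ Real.log (Real.log N) ^ (11 / 5 : ℝ) < r ∧ r ∣ p - 1 ∧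
      r ∣ n ∧ p ∣ n)
    (hdiv : ¬ ∃ p d : ℕ, p.Prime ∧ Real.exp (Real.log N ^ (1 - η)) < p ∧ p ∣ n ∧ d ∣ n ∧
      d ≡ 1 [MOD p] ∧ d ≠ 1) : ManyG (c / 2) η n := by
  have hnr : (0 : ℝ) < n := by exact_mod_cast hn0
  have hnr1 : (1 : ℝ) ≤ n := by exact_mod_cast hn0
  have hN0 : 0 < N := lt_of_lt_of_le hn0 hnN
  have hNr : (0 : ℝ) < N := by exact_mod_cast hN0
  have hlog : Real.log n ≤ Real.log N := Real.log_le_log hnr (by exact_mod_cast hnN)
  have hlog0 : 0 ≤ Real.log n := Real.log_nonneg hnr1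
  refine ⟨(PPL η N).filter (fun p => p ∣ n), fun p hp => ?_, ?_⟩
  · rw [mem_filter] at hp
    obtain ⟨hpP, hpn⟩ := hp
    obtain ⟨hpp, hp8, hpr, hpL, -⟩ := mem_PPL hpP
    have hp7 : 7 ≤ p := by omega
    have hp4 : 4 ∣ p + 1 := dvd_trans (by norm_num) hp8
    refine ⟨⟨(h6 n p _ hy hn0 hpp hpn hp4 hp7 hpr hC).1, ?_, ?_⟩, ?_⟩
    · by_contra hcop
      obtain ⟨r, hr, hr1, hr2⟩ := Nat.Prime.not_coprime_iff_dvd.1 hcop
      have hr3 : 3 ≤ r := by
        have h2 := hr.two_le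
        by_contra hcon
        have hr2' : r = 2 := by omega
        rw [hr2'] at hr1
        omega
      have hrp : r ∣ p - 1 := by
        have e : p - 1 = 2 * ((p - 1) / 2) := by omega
        rw [e]
        exact Dvd.dvd.mul_left hr1 2
      refine hD ⟨r, p, hr, hpp, ?_, hrp, hr2.trans (Nat.div_dvd_of_dvd hpn), hpn⟩
      by_contra hcon
      push Not at hcon
      exact hpr r hr hr3 hcon hrp
    · intro d hd hd1
      by_contra hne
      exact hdiv ⟨p, d, hpp, hpL, hpn, hd, hd1, hne⟩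
    · refine lt_of_le_of_lt ?_ hpL
      exact Real.exp_le_exp.2 (Real.rpow_le_rpow hlog0 hlog (by linarith))
  · push Not at hB
    have h1 : Real.log (Real.log n) / Real.log (Real.log (Real.log n)) ≤
        Real.log (Real.log N) / Real.log (Real.log (Real.log N)) := by
      have h2 : Real.log N / 2 ≤ Real.log n := by
        have h3 : Real.log (Real.sqrt N) ≤ Real.log n :=
          Real.log_le_log (Real.sqrt_pos.2 hNr) hn.le
        rwa [Real.log_sqrt hNr.le] at h3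
      have h4 : Real.log (Real.log N) - Real.log 2 ≤ Real.log (Real.log n) := by
        rw [← Real.log_div hlN.ne' (by norm_num)]
        exact Real.log_le_log (by linarith) h2
      apply div_log_mono (by linarith)
      exact Real.log_le_log (by linarith) hlog
    have h5 := mul_le_mul_of_nonneg_left h1 hc.le
    linarith

/-- the last term -/
theorem tend5 {η : ℝ} (hη1 : η < 1) :
    Tendsto (fun x : ℝ => (1 + x) / Real.exp (x ^ (1 - η))) atTop (𝓝 0) := by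
  have h0 : 0 < 1 - η := by linarith
  have h1 : Tendsto (fun x : ℝ => x ^ (1 - η)) atTop atTop := tendsto_rpow_atTop h0
  have h2 := (tendsto_rpow_mul_exp_neg_mul_atTop_nhds_zero 0 1 one_pos).comp h1
  have h3 := (tendsto_rpow_mul_exp_neg_mul_atTop_nhds_zero (1 / (1 - η)) 1 one_pos).comp h1
  have h4 := h2.add h3
  rw [add_zero] at h4
  refine h4.congr' ?_
  filter_upwards [eventually_ge_atTop (0 : ℝ)] with x hx
  simp only [Function.comp_apply]
  rw [Real.rpow_zero, ← Real.rpow_mul hx, mul_one_div_cancel h0.ne', Real.rpow_one, neg_mul, one_mul,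
    Real.exp_neg, div_eq_mul_inv]
  ring_nf

theorem t_ntg (h1 : S_LOWL) (h2 : S_COLR) (h3 : S_DIV) (h4 : S_TUR) (h5 : S_COL)
    (h6 : S_GOOD2) : S_NTG := by
  intro η hη hη1
  obtain ⟨c, hc, N0, hN0⟩ := h1 η hη hη1
  obtain ⟨C2, hC2, hcol⟩ := h5
  obtain ⟨C3, hC3, hcolr⟩ := h2
  refine ⟨c / 2, by positivity, ?_⟩
  have tN : Tendsto (fun N : ℕ => (N : ℝ)) atTop atTop := tendsto_natCast_atTop_atTop
  have tl : Tendsto (fun N : ℕ => Real.log N) atTop atTop := Real.tendsto_log_atTop.comp tN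
  have tu : Tendsto (fun N : ℕ => Real.log (Real.log N)) atTop atTop :=
    Real.tendsto_log_atTop.comp tl
  -- the bound
  have hB : Tendsto (fun N : ℕ => 3 * (Real.sqrt N)⁻¹ +
      12 / c * (Real.log (Real.log (Real.log N)) / Real.log (Real.log N)) +
      C2 * Real.log (Real.log N) ^ (-(1 / 5) : ℝ) + C3 * Real.log (Real.log N) ^ (-(6 / 5) : ℝ) +
      2 * ((1 + Real.log N) / Real.exp (Real.log N ^ (1 - η)))) atTop (𝓝 0) := by
    have t1 : Tendsto (fun N : ℕ => 3 * (Real.sqrt N)⁻¹) atTop (𝓝 0) := by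
      have := (tendsto_inv_atTop_zero.comp (Real.tendsto_sqrt_atTop.comp tN)).const_mul 3
      rwa [mul_zero] at this
    have t2 : Tendsto (fun N : ℕ => 12 / c * (Real.log (Real.log (Real.log N)) /
        Real.log (Real.log N))) atTop (𝓝 0) := by
      have := ((Real.isLittleO_log_id_atTop.tendsto_div_nhds_zero).comp tu).const_mul (12 / c)
      rwa [mul_zero] at this
    have t3 : Tendsto (fun N : ℕ => C2 * Real.log (Real.log N) ^ (-(1 / 5) : ℝ)) atTop (𝓝 0) := by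
      have := ((tendsto_rpow_neg_atTop (y := 1 / 5) (by norm_num)).comp tu).const_mul C2
      rwa [mul_zero] at this
    have t4 : Tendsto (fun N : ℕ => C3 * Real.log (Real.log N) ^ (-(6 / 5) : ℝ)) atTop (𝓝 0) := by
      have := ((tendsto_rpow_neg_atTop (y := 6 / 5) (by norm_num)).comp tu).const_mul C3
      rwa [mul_zero] at this
    have t5 : Tendsto (fun N : ℕ => 2 * ((1 + Real.log N) / Real.exp (Real.log N ^ (1 - η)))) atTop
        (𝓝 0) := by
      have := ((tend5 hη1).comp tl).const_mul 2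
      rwa [mul_zero] at this
    have := (((t1.add t2).add t3).add t4).add t5
    simpa only [add_zero] using this
  refine squeeze_zero' (Eventually.of_forall fun N => by positivity) ?_ hB
  filter_upwards [eventually_ge_atTop N0, eventually_ge_atTop 16,
    tu.eventually_ge_atTop (Real.exp 1 + Real.log 2), tu.eventually_ge_atTop 2,
    tl.eventually_gt_atTop 0] with N e1 e2 e3 e4 e5
  have hNr : (0 : ℝ) < N := by
    have : 0 < N := by omega
    exact_mod_cast this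
  obtain ⟨u, hu⟩ : ∃ u : ℝ, u = Real.log (Real.log N) := ⟨_, rfl⟩
  obtain ⟨L, hL⟩ : ∃ L : ℝ, L = Real.exp (Real.log N ^ (1 - η)) := ⟨_, rfl⟩
  have hE := hN0 N e1
  have hu0 : 0 < u := by rw [hu]; linarith
  have hy : 2 ≤ Real.log (Real.log N) ^ (11 / 5 : ℝ) := by
    rw [← hu] at e4 ⊢
    calc (2 : ℝ) ≤ u := e4
      _ = u ^ (1 : ℝ) := (Real.rpow_one u).symm
      _ ≤ u ^ (11 / 5 : ℝ) := Real.rpow_le_rpow_of_exponent_le (by linarith) (by norm_num)
  have hL1 : 1 ≤ Real.exp (Real.log N ^ (1 - η)) := Real.one_le_exp (Real.rpow_nonneg e5.le _)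
  -- the exceptional sets
  obtain ⟨AB, hAB, hABc⟩ : ∃ A : Finset ℕ, (∀ n ∈ Icc 1 N,
      ((((PPL η N).filter (fun p => p ∣ n)).card : ℕ) : ℝ) < (∑ p ∈ PPL η N, (1 : ℝ) / p) / 2 →
      n ∈ A) ∧ (A.card : ℝ) * ∑ p ∈ PPL η N, (1 : ℝ) / p ≤ 12 * N := by
    refine ⟨_, ?_, h4 N (PPL η N) (fun p hp => (mem_PPL hp).1) ?_⟩
    · intro n hn hq
      exact mem_filter.2 ⟨hn, hq⟩
    · have h7 : (PPL η N).card ≤ (Icc 1 ⌊Real.sqrt N⌋₊).card :=
        card_le_card fun p hp => (mem_PPL hp).2.2.2.2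
      rw [Nat.card_Icc, Nat.add_sub_cancel] at h7
      refine h7.trans ?_
      have h8 : Real.sqrt N ≤ N := by
        rw [Real.sqrt_le_left hNr.le]
        have : (1 : ℝ) ≤ N := by
          have : 1 ≤ N := by omega
          exact_mod_cast this
        nlinarith
      exact (Nat.floor_le_floor h8).trans (by rw [Nat.floor_natCast])
  obtain ⟨AC, hAC, hACc⟩ : ∃ A : Finset ℕ, (∀ n ∈ Icc 1 N,
      Coll (Real.log (Real.log N) ^ (11 / 5 : ℝ)) n → n ∈ A) ∧ (A.card : ℝ) ≤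
      C2 * (N * Real.log (Real.log N) ^ 2 / Real.log (Real.log N) ^ (11 / 5 : ℝ)) := by
    refine ⟨_, ?_, hcol N e2 _ (by linarith)⟩
    intro n hn hq
    exact mem_filter.2 ⟨hn, hq⟩
  obtain ⟨AD, hAD, hADc⟩ : ∃ A : Finset ℕ, (∀ n ∈ Icc 1 N,
      (∃ r p : ℕ, r.Prime ∧ p.Prime ∧ Real.log (Real.log N) ^ (11 / 5 : ℝ) < r ∧ r ∣ p - 1 ∧
        r ∣ n ∧ p ∣ n) → n ∈ A) ∧ (A.card : ℝ) ≤
      C3 * (N * Real.log (Real.log N) / Real.log (Real.log N) ^ (11 / 5 : ℝ)) := by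
    refine ⟨_, ?_, hcolr N e2 _ (by linarith)⟩
    intro n hn hq
    exact mem_filter.2 ⟨hn, hq⟩
  obtain ⟨AE, hAE, hAEc⟩ : ∃ A : Finset ℕ, (∀ n ∈ Icc 1 N,
      (∃ p d : ℕ, p.Prime ∧ Real.exp (Real.log N ^ (1 - η)) < p ∧ p ∣ n ∧ d ∣ n ∧
        d ≡ 1 [MOD p] ∧ d ≠ 1) → n ∈ A) ∧ (A.card : ℝ) ≤
      2 * (N * (1 + Real.log N) / Real.exp (Real.log N ^ (1 - η))) := by
    refine ⟨_, ?_, h3 N (by omega) _ hL1⟩
    intro n hn hq
    exact mem_filter.2 ⟨hn, hq⟩
  obtain ⟨S, hS, hSc⟩ : ∃ S : Finset ℕ, (∀ n ∈ range N, ¬ ManyG (c / 2) η n → n ∈ S) ∧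
      (S.card : ℝ) ≤ Real.sqrt N + 1 + AB.card + AC.card + AD.card + AE.card := by
    refine ⟨range (⌊Real.sqrt N⌋₊ + 1) ∪ AB ∪ AC ∪ AD ∪ AE, ?_, ?_⟩
    · intro n hn hnM
      rw [mem_range] at hn
      by_contra hcon
      simp only [mem_union, not_or] at hcon
      obtain ⟨⟨⟨⟨f1, f2⟩, f3⟩, f4⟩, f5⟩ := hcon
      rw [mem_range, not_lt] at f1
      have hnn : Real.sqrt N < n := Nat.lt_of_floor_lt (by omega)
      have hn1 : n ∈ Icc 1 N := mem_Icc.2 ⟨by omega, hn.le⟩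
      exact hnM (many h6 hη1 hc (by omega) hn.le hnn hE e3 e5 hy (fun h => f2 (hAB n hn1 h))
        (fun h => f3 (hAC n hn1 h)) (fun h => f4 (hAD n hn1 h)) (fun h => f5 (hAE n hn1 h)))
    · have g1 := card_union_le (range (⌊Real.sqrt N⌋₊ + 1) ∪ AB ∪ AC ∪ AD) AE
      have g2 := card_union_le (range (⌊Real.sqrt N⌋₊ + 1) ∪ AB ∪ AC) AD
      have g3 := card_union_le (range (⌊Real.sqrt N⌋₊ + 1) ∪ AB) AC
      have g4 := card_union_le (range (⌊Real.sqrt N⌋₊ + 1)) AB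
      rw [card_range] at g4
      have g5 : (range (⌊Real.sqrt N⌋₊ + 1) ∪ AB ∪ AC ∪ AD ∪ AE).card ≤
          ⌊Real.sqrt N⌋₊ + 1 + AB.card + AC.card + AD.card + AE.card := by omega
      have g6 : ((range (⌊Real.sqrt N⌋₊ + 1) ∪ AB ∪ AC ∪ AD ∪ AE).card : ℝ) ≤
          (⌊Real.sqrt N⌋₊ : ℝ) + 1 + AB.card + AC.card + AD.card + AE.card := by
        exact_mod_cast g5
      have g7 := Nat.floor_le (Real.sqrt_nonneg (N : ℝ))
      linarith
  have hcard : ((((range N).filter (fun n => ¬ ManyG (c / 2) η n)).card : ℕ) : ℝ) ≤ S.card := by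
    have h7 : ((range N).filter (fun n => ¬ ManyG (c / 2) η n)).card ≤ S.card :=
      card_le_card fun n hn => hS n (mem_filter.1 hn).1 (mem_filter.1 hn).2
    exact_mod_cast h7
  rw [div_le_iff₀ hNr]
  refine (hcard.trans hSc).trans ?_
  -- the five terms
  have k1 : Real.sqrt N + 1 ≤ 3 * (Real.sqrt N)⁻¹ * N := by
    have h7 : 1 ≤ Real.sqrt N := by
      rw [Real.one_le_sqrt]
      have : 1 ≤ N := by omega
      exact_mod_cast this
    have h8 : 3 * (Real.sqrt N)⁻¹ * N = 3 * Real.sqrt N := by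
      have h9 : (N : ℝ) = Real.sqrt N * Real.sqrt N := (Real.mul_self_sqrt hNr.le).symm
      calc 3 * (Real.sqrt N)⁻¹ * N = 3 * (Real.sqrt N)⁻¹ * (Real.sqrt N * Real.sqrt N) := by
            rw [← h9]
        _ = 3 * Real.sqrt N := by
            have : Real.sqrt N ≠ 0 := by linarith
            field_simp
    rw [h8]
    linarith
  have hlu : 0 < Real.log u := by
    have h7 : Real.exp 1 ≤ u := by
      rw [hu]
      have := Real.log_nonneg (show (1 : ℝ) ≤ 2 by norm_num)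
      linarith
    have h8 : 1 ≤ Real.log u := by
      rw [Real.le_log_iff_exp_le hu0]
      exact h7
    linarith
  have k2 : (AB.card : ℝ) ≤ 12 / c * (Real.log u / u) * N := by
    have h7 : 0 < c * (u / Real.log u) := by positivity
    have h8 : (AB.card : ℝ) * (c * (u / Real.log u)) ≤ 12 * N := by
      refine le_trans (mul_le_mul_of_nonneg_left ?_ (Nat.cast_nonneg _)) hABc
      rw [hu]
      exact hE
    rw [← le_div_iff₀ h7] at h8
    refine h8.trans (le_of_eq ?_)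
    field_simp
  have k3 : (AC.card : ℝ) ≤ C2 * u ^ (-(1 / 5) : ℝ) * N := by
    rw [← hu] at hACc
    refine hACc.trans (le_of_eq ?_)
    have h7 : u ^ (-(1 / 5) : ℝ) = u ^ 2 / u ^ (11 / 5 : ℝ) := by
      rw [← Real.rpow_natCast, ← Real.rpow_sub hu0]
      norm_num
    rw [h7]
    ring
  have k4 : (AD.card : ℝ) ≤ C3 * u ^ (-(6 / 5) : ℝ) * N := by
    rw [← hu] at hADc
    refine hADc.trans (le_of_eq ?_)
    have h7 : u ^ (-(6 / 5) : ℝ) = u / u ^ (11 / 5 : ℝ) := by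
      have h8 : u ^ (-(6 / 5) : ℝ) = u ^ ((1 : ℝ) - 11 / 5) := by norm_num
      rw [h8, Real.rpow_sub hu0, Real.rpow_one]
    rw [h7]
    ring
  have k5 : (AE.card : ℝ) ≤ 2 * ((1 + Real.log N) / Real.exp (Real.log N ^ (1 - η))) * N := by
    refine hAEc.trans (le_of_eq ?_)
    ring
  rw [← hu]
  linarith

end Pool.Agent.H376.TS144
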